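import Pool.Agent.Q273.TR.Conv

/-!
The inequalities for heights, from the theorems on polynomials.
-/

set_option autoImplicit false

namespace Q273.TR

open Polynomial

/-- the coefficient vector -/
def cv (s : ℕ) (f : ℤ[X]) : Fin (s + 1) → ℤ := fun i => f.coeff i

lemma Pv_cv {s : ℕ} {f : ℤ[X]} (h : f.natDegree = s) : Pv (cv s f) = f :=
  Pv_surj (s + 1) f (by omega)

lemma rs_cv {s q : ℕ} {f G : ℤ[X]} (h : f.natDegree = s) :
    rs G q s (cv s f) = resultant f G f.natDegree q := by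
  unfold rs
  rw [Pv_cv h, h]

lemma sz_cv_pos {s : ℕ} {f : ℤ[X]} (h : f.natDegree = s) (hf : f ≠ 0) : 1 ≤ sz (cv s f) := by
  by_contra hcon
  apply hf
  rw [← Pv_cv h]
  have h0 : cv s f = 0 := by
    ext i
    have h3 : (cv s f i).natAbs ≤ sz (cv s f) :=
      Finset.le_sup (f := fun i => (cv s f i).natAbs) (Finset.mem_univ i)
    have h4 : (cv s f i).natAbs = 0 := by omega
    exact Int.natAbs_eq_zero.1 h4
  rw [h0]
  unfold Pv Pf
  exact Finset.sum_eq_zero fun i _ => by simp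

lemma height_nonneg {f : ℤ[X]} (hf : f ≠ 0) : 0 ≤ height f :=
  div_nonneg (Real.log_nonneg (one_le_mah f hf)) (Nat.cast_nonneg _)

/-- one polynomial which is not exceptional -/
lemma one_bound {s : ℕ} (hs : 1 ≤ s) (z κ R : ℝ) (hκ : 0 ≤ κ) (hR : 1 ≤ R) {f : ℤ[X]}
    (hf : f ≠ 0) (hd : f.natDegree = s)
    (h : (sz (cv s f) : ℝ) ^ (-κ) * R⁻¹ < |DD 0 f z|) :
    prox z f ≤ (κ + 1) * height f + Real.log R / s + κ * Real.log 2 + Real.log (max 1 |z|) := by
  have hs0 : (0 : ℝ) < s := by exact_mod_cast hs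
  have hR0 : 0 < R := by linarith
  have hsz1 : (1 : ℝ) ≤ sz (cv s f) := by exact_mod_cast sz_cv_pos hd hf
  have hsz0 : (0 : ℝ) < sz (cv s f) := by linarith
  have hpos : 0 < (sz (cv s f) : ℝ) ^ (-κ) * R⁻¹ := by positivity
  have hD : 0 < |DD 0 f z| := hpos.trans h
  have hDne : DD 0 f z ≠ 0 := abs_pos.1 hD
  rw [prox_eq z hf (by omega) hDne, hd]
  have h1 : -(κ * Real.log (sz (cv s f))) - Real.log R ≤ Real.log |DD 0 f z| := by
    have h2 := Real.log_le_log hpos h.le
    rw [Real.log_mul (Real.rpow_pos_of_pos hsz0 _).ne' (inv_ne_zero hR0.ne'),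
      Real.log_rpow hsz0, Real.log_inv] at h2
    linarith
  have hM1 := one_le_mah f hf
  have h3 : Real.log (sz (cv s f)) ≤ s * Real.log 2 + Real.log (mah f) := by
    have h4 := sz_le_mah (cv s f)
    rw [Pv_cv hd] at h4
    have h5 := Real.log_le_log hsz0 h4
    rw [Real.log_mul (by positivity) (by linarith), Real.log_pow] at h5
    exact h5
  have hh : Real.log (mah f) = s * height f := by
    unfold height mah
    rw [hd]
    field_simp
  have h6 := mul_le_mul_of_nonneg_left h3 hκ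
  have h7 : (Real.log (mah f) - Real.log |DD 0 f z|) / s ≤
      (κ + 1) * height f + Real.log R / s + κ * Real.log 2 := by
    rw [div_le_iff₀ hs0]
    have e : ((κ + 1) * height f + Real.log R / s + κ * Real.log 2) * s =
        (κ + 1) * (s * height f) + Real.log R + κ * (s * Real.log 2) := by
      field_simp
    rw [e, ← hh]
    linarith
  linarith

/-- the excess of the inequality -/
noncomputable def exc (z : ℝ) (q : ℕ) (S : Finset ℕ) (G : ℤ[X]) (c : ℝ) (f : ℤ[X]) : ℝ :=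
  prox z f + (q * height f - N1 S q G f) - c * height f

lemma N1_nonneg (S : Finset ℕ) (q : ℕ) (G f : ℤ[X]) : 0 ≤ N1 S q G f :=
  div_nonneg (Finset.sum_nonneg fun p _ => Real.log_natCast_nonneg p) (Nat.cast_nonneg _)

lemma log_rad_N1 {s : ℕ} (hs : 1 ≤ s) (S : Finset ℕ) (q : ℕ) (G f : ℤ[X])
    (hd : f.natDegree = s) :
    Real.log (rad (rs G q s (cv s f))) / s ≤ N1 S q G f + ∑ p ∈ S, Real.log p := by
  have hs0 : (0 : ℝ) < s := by exact_mod_cast hs
  have hs1 : (1 : ℝ) ≤ s := by exact_mod_cast hs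
  rw [div_le_iff₀ hs0, rs_cv hd]
  refine (log_rad_le S _).trans ?_
  unfold N1
  rw [add_mul, hd, div_mul_cancel₀ _ hs0.ne']
  have h1 : 0 ≤ ∑ p ∈ S, Real.log p := Finset.sum_nonneg fun p _ => Real.log_natCast_nonneg p
  have h2 := le_mul_of_one_le_right h1 hs1
  linarith

theorem part1 {z : ℝ}
    (hspr : ∀ s : ℕ, 1 ≤ s → ∀ ε : ℝ, 0 < ε →
      {a : Fin (s + 1) → ℤ | a ≠ 0 ∧ |DD 0 (Pv a) z| ≤ (sz a : ℝ) ^ (-(s : ℝ) - ε)}.Finite)
    (hmain : ∀ (s q : ℕ) (G : ℤ[X]), IsDiv q G → q + 1 ≤ s → ∀ ε : ℝ, 0 < ε →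
      {a : Fin (s + 1) → ℤ | rs G q s a ≠ 0 ∧ |DD 0 (Pv a) z| ≤
        (sz a : ℝ) ^ ((q : ℝ) - (max s (3 * q - 1) : ℕ) - ε) *
          ((rad (rs G q s a) : ℝ))⁻¹}.Finite)
    (s q : ℕ) (G : ℤ[X]) (S : Finset ℕ) (hs : 1 ≤ s) (hp : IsPair q G S) (ε : ℝ) (hε : 0 < ε) :
    ∃ C : ℝ, ∀ (f : ℤ[X]) (x : ℂ), IsPoint s G f x →
      prox z f + (q * height f - N1 S q G f) ≤
        (((max (s + 1) (3 * q) : ℕ) : ℝ) + ε) * height f + C := by
  classical
  obtain ⟨hG1, hG2, hG3, hS⟩ := hp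
  have hS0 : 0 ≤ ∑ p ∈ S, Real.log p := Finset.sum_nonneg fun p _ => Real.log_natCast_nonneg p
  by_cases hqs : q + 1 ≤ s
  · have hfin := hmain s q G ⟨hG1, hG2, hG3⟩ hqs ε hε
    obtain ⟨r, hr⟩ : ∃ r : ℕ, r = max s (3 * q - 1) := ⟨_, rfl⟩
    have hr1 : r + 1 = max (s + 1) (3 * q) := by omega
    have hqr : q ≤ r := by omega
    obtain ⟨κ, hκ⟩ : ∃ κ : ℝ, κ = (r : ℝ) - q + ε := ⟨_, rfl⟩
    have hκ0 : 0 ≤ κ := by
      have : (q : ℝ) ≤ r := by exact_mod_cast hqr
      rw [hκ]; linarith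
    set c : ℝ := ((max (s + 1) (3 * q) : ℕ) : ℝ) + ε with hc
    have hc' : c = κ + 1 + q := by
      rw [hc, hκ, ← hr1]; push_cast; ring
    refine ⟨κ * Real.log 2 + Real.log (max 1 |z|) + ∑ p ∈ S, Real.log p +
      ∑ a ∈ hfin.toFinset, |exc z q S G c (Pv a)|, fun f x hx => ?_⟩
    have hd : f.natDegree = s := hx.2.1
    have hf0 := hx.1.ne_zero
    have hres : rs G q s (cv s f) ≠ 0 := by
      rw [rs_cv hd]; exact res_ne hs hx hG2
    have hK0 : 0 ≤ κ * Real.log 2 + Real.log (max 1 |z|) + ∑ p ∈ S, Real.log p := by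
      have h1 := Real.log_nonneg (le_max_left 1 |z|)
      have h2 := mul_nonneg hκ0 (Real.log_nonneg one_le_two)
      linarith
    have hsum0 : 0 ≤ ∑ a ∈ hfin.toFinset, |exc z q S G c (Pv a)| :=
      Finset.sum_nonneg fun a _ => abs_nonneg _
    by_cases hmem : cv s f ∈ hfin.toFinset
    · have h1 := Finset.single_le_sum (f := fun a => |exc z q S G c (Pv a)|)
        (fun a _ => abs_nonneg _) hmem
      rw [Pv_cv hd] at h1
      have h2 := (le_abs_self (exc z q S G c f)).trans h1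
      have h3 : exc z q S G c f = prox z f + (q * height f - N1 S q G f) - c * height f := rfl
      linarith
    · rw [Set.Finite.mem_toFinset, Set.mem_ofPred_eq, not_and, not_le] at hmem
      have h1 := hmem hres
      rw [Pv_cv hd, ← hr] at h1
      have h2 : (q : ℝ) - r - ε = -κ := by rw [hκ]; ring
      rw [h2] at h1
      have hrad1 : (1 : ℝ) ≤ rad (rs G q s (cv s f)) := by exact_mod_cast rad_pos _
      have h3 := one_bound hs z κ _ hκ0 hrad1 hf0 hd h1
      have h4 := log_rad_N1 hs S q G f hd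
      have e : c * height f = (κ + 1) * height f + q * height f := by rw [hc']; ring
      rw [e]
      linarith
  · have hfin := hspr s hs ε hε
    obtain ⟨κ, hκ⟩ : ∃ κ : ℝ, κ = (s : ℝ) + ε := ⟨_, rfl⟩
    have hκ0 : 0 ≤ κ := by
      rw [hκ]; positivity
    set c : ℝ := ((max (s + 1) (3 * q) : ℕ) : ℝ) + ε with hc
    have hc' : κ + 1 + q ≤ c := by
      rw [hc, hκ]
      have h1 : s + 1 + q ≤ max (s + 1) (3 * q) := by omega
      have h2 : ((s : ℝ) + 1 + q) ≤ ((max (s + 1) (3 * q) : ℕ) : ℝ) := by exact_mod_cast h1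
      linarith
    refine ⟨κ * Real.log 2 + Real.log (max 1 |z|) +
      ∑ a ∈ hfin.toFinset, |exc z q S G c (Pv a)|, fun f x hx => ?_⟩
    have hd : f.natDegree = s := hx.2.1
    have hf0 := hx.1.ne_zero
    have hK0 : 0 ≤ κ * Real.log 2 + Real.log (max 1 |z|) := by
      have h1 := Real.log_nonneg (le_max_left 1 |z|)
      have h2 := mul_nonneg hκ0 (Real.log_nonneg one_le_two)
      linarith
    have hsum0 : 0 ≤ ∑ a ∈ hfin.toFinset, |exc z q S G c (Pv a)| :=
      Finset.sum_nonneg fun a _ => abs_nonneg _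
    by_cases hmem : cv s f ∈ hfin.toFinset
    · have h1 := Finset.single_le_sum (f := fun a => |exc z q S G c (Pv a)|)
        (fun a _ => abs_nonneg _) hmem
      rw [Pv_cv hd] at h1
      have h2 := (le_abs_self (exc z q S G c f)).trans h1
      have h3 : exc z q S G c f = prox z f + (q * height f - N1 S q G f) - c * height f := rfl
      linarith
    · rw [Set.Finite.mem_toFinset, Set.mem_ofPred_eq, not_and, not_le] at hmem
      have hne : cv s f ≠ 0 := by
        intro h0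
        have h1 := sz_cv_pos hd hf0
        rw [h0] at h1
        have : sz (0 : Fin (s + 1) → ℤ) = 0 := by
          unfold sz
          exact Nat.le_zero.1 (Finset.sup_le fun i _ => by simp)
        omega
      have h1 := hmem hne
      rw [Pv_cv hd] at h1
      have h2 : -(s : ℝ) - ε = -κ := by rw [hκ]; ring
      rw [h2] at h1
      have h3 := one_bound hs z κ 1 hκ0 le_rfl hf0 hd (by rw [inv_one, mul_one]; exact h1)
      rw [Real.log_one, zero_div, add_zero] at h3
      have h4 := N1_nonneg S q G f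
      have h5 := mul_le_mul_of_nonneg_right hc' (height_nonneg hf0)
      have e : (κ + 1 + q) * height f = (κ + 1) * height f + q * height f := by ring
      rw [e] at h5
      linarith

theorem part2 {z : ℝ} (hdiri : S_DIRI)
    (hspr : ∀ s : ℕ, 1 ≤ s → ∀ ε : ℝ, 0 < ε →
      {a : Fin (s + 1) → ℤ | a ≠ 0 ∧ |DD 0 (Pv a) z| ≤ (sz a : ℝ) ^ (-(s : ℝ) - ε)}.Finite)
    (s : ℕ) (hs : 1 ≤ s) :
    ∃ C : ℝ, {f : ℤ[X] | Irreducible f ∧ f.natDegree = s ∧
      ((s : ℝ) + 1) * height f - C ≤ prox z f}.Infinite := by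
  obtain ⟨C, hC⟩ := hdiri s z hs (fun t ht _ ε hε => hspr t ht ε hε)
  have hs0 : (0 : ℝ) < s := by exact_mod_cast hs
  refine ⟨Real.log (max 1 C) / s + Real.log (s + 1), ?_⟩
  have himg := hC.image (f := Pv) Pv_inj.injOn
  refine himg.mono ?_
  rintro _ ⟨a, ⟨h1, h2, h3⟩, rfl⟩
  have hdeg : (Pv a).natDegree = s := by
    refine le_antisymm ?_ ?_
    · rw [natDegree_le_iff_coeff_eq_zero]
      intro j hj
      exact Pv_coeff_ge a (by omega)
    · refine le_natDegree_of_ne_zero ?_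
      have := Pv_coeff a (Fin.last s)
      rw [Fin.val_last] at this
      rw [this]; exact h2
  have hf0 := h1.ne_zero
  refine ⟨h1, hdeg, ?_⟩
  have hcv : cv s (Pv a) = a := by
    ext i
    exact Pv_coeff a i
  have hsz : 1 ≤ sz a := by
    have := sz_cv_pos hdeg hf0
    rwa [hcv] at this
  have hsz1 : (1 : ℝ) ≤ sz a := by exact_mod_cast hsz
  have hsz0 : (0 : ℝ) < sz a := by linarith
  -- the value is not zero
  have hD : DD 0 (Pv a) z ≠ 0 := by
    intro h0
    have hfin := hspr s hs 1 one_pos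
    have hinf : (Set.range fun k : ℕ => ((k : ℤ) + 1) • a).Infinite := by
      refine Set.infinite_range_of_injective fun k l hkl => ?_
      have ha : a ≠ 0 := by
        rintro rfl
        apply hf0
        unfold Pv Pf
        exact Finset.sum_eq_zero fun i _ => by simp
      obtain ⟨i, hi⟩ := Function.ne_iff.1 ha
      have h5 := congrFun hkl i
      simp only [Pi.smul_apply, smul_eq_mul] at h5
      have h6 := mul_right_cancel₀ hi h5
      omega
    refine hinf (hfin.subset ?_)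
    rintro _ ⟨k, rfl⟩
    have ha : a ≠ 0 := by
      rintro rfl
      apply hf0
      unfold Pv Pf
      exact Finset.sum_eq_zero fun i _ => by simp
    have hk : ((k : ℤ) + 1) ≠ 0 := by omega
    refine ⟨smul_ne_zero hk ha, ?_⟩
    have h5 : Pv (((k : ℤ) + 1) • a) = Polynomial.C ((k : ℤ) + 1) * Pv a := by
      unfold Pv Pf
      rw [Finset.mul_sum]
      refine Finset.sum_congr rfl (fun i _ => ?_)
      rw [Pi.smul_apply, smul_eq_mul, C_mul, mul_assoc]
    have h6 : DD 0 (Pv (((k : ℤ) + 1) • a)) z = 0 := by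
      unfold DD at h0 ⊢
      rw [h5, hasseDeriv_zero, LinearMap.id_apply, Polynomial.map_mul, eval_mul]
      rw [hasseDeriv_zero, LinearMap.id_apply] at h0
      rw [h0, mul_zero]
    rw [h6, abs_zero]
    positivity
  rw [prox_eq z hf0 (by omega) hD, hdeg]
  have hDa : 0 < |DD 0 (Pv a) z| := abs_pos.2 hD
  have h4 : |DD 0 (Pv a) z| ≤ max 1 C * (sz a : ℝ) ^ (-(s : ℝ)) :=
    h3.trans (mul_le_mul_of_nonneg_right (le_max_right _ _) (by positivity))
  have hm0 : 0 < max 1 C := lt_of_lt_of_le one_pos (le_max_left _ _)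
  have h5 := Real.log_le_log hDa h4
  rw [Real.log_mul hm0.ne' (Real.rpow_pos_of_pos hsz0 _).ne', Real.log_rpow hsz0] at h5
  have hM1 := one_le_mah (Pv a) hf0
  have h6 : Real.log (mah (Pv a)) ≤ Real.log (s + 1) + Real.log (sz a) := by
    have h7 := Real.log_le_log (by linarith) (mah_le_sz a)
    rwa [Real.log_mul (by positivity) hsz0.ne'] at h7
  have hh : Real.log (mah (Pv a)) = s * height (Pv a) := by
    unfold height mah
    rw [hdeg]
    field_simp
  have h8 := Real.log_nonneg (le_max_left 1 |z|)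
  have h9 : ((s : ℝ) + 1) * height (Pv a) - (Real.log (max 1 C) / s + Real.log (s + 1)) ≤
      (Real.log (mah (Pv a)) - Real.log |DD 0 (Pv a) z|) / s := by
    rw [le_div_iff₀ hs0]
    have e : (((s : ℝ) + 1) * height (Pv a) - (Real.log (max 1 C) / s + Real.log (s + 1))) * s =
        (s + 1) * (s * height (Pv a)) - Real.log (max 1 C) - s * Real.log (s + 1) := by
      field_simp
      ring
    rw [e, ← hh]
    have h10 := mul_le_mul_of_nonneg_left h6 hs0.le
    linarith
  linarith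

end Q273.TR
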