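import Mathlib

set_option autoImplicit false

/-!
Points of bounded degree near almost every real number: definitions and statements of lemmas.
-/

namespace Q273.TR

open Polynomial MeasureTheory

/-- the polynomial with the coordinates `u` with respect to `f` -/
noncomputable def Pf {n : ℕ} (f : Fin n → ℤ[X]) (u : Fin n → ℤ) : ℤ[X] := ∑ i, C (u i) * f i

/-- the polynomial with the coefficients `u` -/
noncomputable def Pv {n : ℕ} (u : Fin n → ℤ) : ℤ[X] := Pf (fun i => X ^ (i : ℕ)) u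

/-- divided derivative of an integral polynomial at a real number -/
noncomputable def DD (j : ℕ) (P : ℤ[X]) (z : ℝ) : ℝ :=
  ((hasseDeriv j P).map (Int.castRingHom ℝ)).eval z

/-- size of an integral vector -/
def sz {n : ℕ} (u : Fin n → ℤ) : ℕ := Finset.univ.sup fun i => (u i).natAbs

/-- the product of the primes dividing `m` -/
def rad (m : ℤ) : ℕ := ∏ p ∈ m.natAbs.primeFactors, p

/-- KMV: small value and small derivative on a lattice of polynomials is rare. -/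
def S_KMV : Prop := ∀ m d : ℕ, ∃ C δ : ℝ, 0 < C ∧ 0 < δ ∧ ∀ f : Fin (m + 2) → ℤ[X],
  LinearIndependent ℤ f → (∀ i, (f i).natDegree ≤ d) → ∀ κ K T Λ : ℝ, 0 < κ → 0 < K → 1 ≤ T →
    κ ≤ Λ → κ * K * T ^ m ≤ Λ → Λ ≤ 1 →
      volume {z : ℝ | z ∈ Set.Ico (0 : ℝ) 1 ∧ ∃ u : Fin (m + 2) → ℤ, u ≠ 0 ∧
        |DD 0 (Pf f u) z| ≤ κ ∧ |DD 1 (Pf f u) z| ≤ K ∧ ∀ j < m + 2, |DD j (Pf f u) z| ≤ T} ≤
          ENNReal.ofReal (C * Λ ^ δ)

/-- CELL: a family of polynomials with separated near-roots. -/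
def S_CELL : Prop := ∀ (ι : Type) (P : ι → ℝ[X]) (κ K L ρ : ℝ) (E : Set ℝ),
  0 < κ → 0 < K → 0 ≤ L → 0 < ρ → ρ ≤ 1 → L * ρ ≤ K / 4 →
  (∀ a, ∀ z ∈ Set.Icc (0 : ℝ) 1, |(derivative (derivative (P a))).eval z| ≤ L) →
  (∀ a b, a ≠ b → ∀ z ∈ Set.Ico (0 : ℝ) 1, |(P a).eval z - (P b).eval z| ≤ 2 * κ + 3 * K * ρ →
    |(derivative (P a)).eval z - (derivative (P b)).eval z| ≤ 3 * K → z ∈ E) →
  volume {z : ℝ | z ∈ Set.Ico (0 : ℝ) 1 ∧ z ∉ E ∧ ∃ a, |(P a).eval z| ≤ κ ∧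
    K / 2 < |(derivative (P a)).eval z| ∧ |(derivative (P a)).eval z| ≤ K} ≤
      ENNReal.ofReal (16 * κ / (ρ * K))

/-- CORE: the metric theorem for a polynomial curve with a weight depending on the class modulo a
sublattice of corank `k`. -/
def S_CORE : Prop := ∀ (n k r : ℕ) (f : Fin (n + 1) → ℤ[X]) (V : Submodule ℤ (Fin (n + 1) → ℤ))
  (Bs : Set (Fin (n + 1) → ℤ)) (Wt : (Fin (n + 1) → ℤ) → ℝ),
  LinearIndependent ℤ f → Module.finrank ℤ V + k = n + 1 → k + 1 ≤ n → n ≤ r → 3 * k ≤ r + 1 →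
  (∀ a ∈ Bs, 1 ≤ Wt a) → (∀ a ∈ Bs, ∀ b ∈ Bs, a - b ∈ V → Wt a = Wt b) →
  (∀ ε : ℝ, 0 < ε → ∃ C : ℝ, ∀ (T : ℕ) (F : Finset (Fin (n + 1) → ℤ)), 1 ≤ T →
    (∀ a ∈ F, a ∈ Bs ∧ ∀ i, |a i| ≤ T) → (∀ a ∈ F, ∀ b ∈ F, a ≠ b → a - b ∉ V) →
      ∑ a ∈ F, (Wt a)⁻¹ ≤ C * (T : ℝ) ^ ε) →
  ∀ ε : ℝ, 0 < ε → ∀ᵐ z : ℝ, {a | a ∈ Bs ∧ a ≠ 0 ∧
    |DD 0 (Pf f a) z| ≤ (sz a : ℝ) ^ ((k : ℝ) - r - ε) * (Wt a)⁻¹}.Finite

/-- a reduced effective divisor of degree `q` of the projective line over `ℚ`, given by a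
squarefree `G ∈ ℤ[X]` of degree `q` or `q - 1` (then infinity belongs to the divisor) -/
def IsDiv (q : ℕ) (G : ℤ[X]) : Prop :=
  Squarefree (G.map (Int.castRingHom ℚ)) ∧ G.natDegree ≤ q ∧ q ≤ G.natDegree + 1

/-- the vectors of the polynomials of degree at most `s` which vanish on the divisor -/
def VG (G : ℤ[X]) (q s : ℕ) : Submodule ℤ (Fin (s + 1) → ℤ) where
  carrier := {u | G.map (Int.castRingHom ℚ) ∣ (Pv u).map (Int.castRingHom ℚ) ∧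
    (G.natDegree < q → u (Fin.last s) = 0)}
  zero_mem' := by
    refine ⟨?_, fun _ => rfl⟩
    have : Pv (0 : Fin (s + 1) → ℤ) = 0 := by
      unfold Pv Pf
      exact Finset.sum_eq_zero (fun i _ => by simp)
    rw [this, Polynomial.map_zero]
    exact dvd_zero _
  add_mem' := by
    rintro a b ⟨ha, ha'⟩ ⟨hb, hb'⟩
    refine ⟨?_, fun h => by rw [Pi.add_apply, ha' h, hb' h, add_zero]⟩
    have : Pv (a + b) = Pv a + Pv b := by
      unfold Pv Pf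
      rw [← Finset.sum_add_distrib]
      refine Finset.sum_congr rfl (fun i _ => ?_)
      rw [Pi.add_apply, C_add, add_mul]
    rw [this, Polynomial.map_add]
    exact dvd_add ha hb
  smul_mem' := by
    rintro c a ⟨ha, ha'⟩
    refine ⟨?_, fun h => by rw [Pi.smul_apply, ha' h, smul_zero]⟩
    have : Pv (c • a) = C c * Pv a := by
      unfold Pv Pf
      rw [Finset.mul_sum]
      refine Finset.sum_congr rfl (fun i _ => ?_)
      rw [Pi.smul_apply, smul_eq_mul, C_mul, mul_assoc]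
    rw [this, Polynomial.map_mul]
    exact ha.mul_left _

/-- the resultant of the polynomial of degree `s` with coefficients `u` and `G`, of formal degree
`q` -/
noncomputable def rs (G : ℤ[X]) (q s : ℕ) (u : Fin (s + 1) → ℤ) : ℤ := resultant (Pv u) G s q

/-- RANK -/
def S_RANK : Prop := ∀ (q s : ℕ) (G : ℤ[X]), IsDiv q G → q ≤ s + 1 →
  Module.finrank ℤ (VG G q s) + q = s + 1

/-- INV -/
def S_INV : Prop := ∀ (q s : ℕ) (G : ℤ[X]) (u v : Fin (s + 1) → ℤ), IsDiv q G →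
  u - v ∈ VG G q s → rs G q s u = rs G q s v

/-- CNT1: the norm equation modulo an irreducible polynomial. -/
def S_CNT1 : Prop := ∀ (g : ℤ[X]) (s : ℕ), Irreducible g → 1 ≤ g.natDegree → ∀ ε : ℝ, 0 < ε →
  ∃ C : ℝ, ∀ (T m : ℕ) (F : Finset (Fin (s + 1) → ℤ)), 1 ≤ T → 1 ≤ m →
    (∀ u ∈ F, (∀ i, |u i| ≤ T) ∧ (rs g g.natDegree s u).natAbs = m) →
    (∀ u ∈ F, ∀ v ∈ F, u ≠ v → u - v ∉ VG g g.natDegree s) → (F.card : ℝ) ≤ C * (T : ℝ) ^ ε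

/-- CNT2: the sum over the classes modulo a squarefree polynomial. -/
def S_CNT2 : Prop := ∀ (q s : ℕ) (G : ℤ[X]), IsDiv q G → ∀ ε : ℝ, 0 < ε →
  ∃ C : ℝ, ∀ (T : ℕ) (F : Finset (Fin (s + 1) → ℤ)), 1 ≤ T →
    (∀ u ∈ F, (∀ i, |u i| ≤ T) ∧ rs G q s u ≠ 0) →
    (∀ u ∈ F, ∀ v ∈ F, u ≠ v → u - v ∉ VG G q s) →
      ∑ u ∈ F, ((rad (rs G q s u) : ℝ))⁻¹ ≤ C * (T : ℝ) ^ ε

/-- DIRI: for almost all real numbers there are infinitely many irreducible polynomials of degree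
exactly `s` with a value of size `H ^ (-s)`; from Sprindzhuk's theorem and Dirichlet's theorem. -/
def S_DIRI : Prop := ∀ (s : ℕ) (z : ℝ), 1 ≤ s →
  (∀ t : ℕ, 1 ≤ t → t ≤ s → ∀ ε : ℝ, 0 < ε →
    {a : Fin (t + 1) → ℤ | a ≠ 0 ∧ |DD 0 (Pv a) z| ≤ (sz a : ℝ) ^ (-(t : ℝ) - ε)}.Finite) →
  ∃ C : ℝ, {a : Fin (s + 1) → ℤ | Irreducible (Pv a) ∧ a (Fin.last s) ≠ 0 ∧
    |DD 0 (Pv a) z| ≤ C * (sz a : ℝ) ^ (-(s : ℝ))}.Infinite

end Q273.TR
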