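import Pool.Agent.Q273.TR.Stm

/-!
The metric theorems for polynomials, from the core theorem and the lemmas on divisors.
-/

set_option autoImplicit false

namespace Q273.TR

open Polynomial MeasureTheory

lemma Pv_coeff {n : ℕ} (u : Fin n → ℤ) (i : Fin n) : (Pv u).coeff i = u i := by
  unfold Pv Pf
  rw [finsetSum_coeff]
  rw [Finset.sum_eq_single i]
  · rw [coeff_C_mul_X_pow, if_pos rfl]
  · intro j _ hj
    rw [coeff_C_mul_X_pow, if_neg]
    intro h
    exact hj (Fin.ext h.symm)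
  · intro h
    exact absurd (Finset.mem_univ i) h

lemma Pv_coeff_ge {n : ℕ} (u : Fin n → ℤ) {i : ℕ} (hi : n ≤ i) : (Pv u).coeff i = 0 := by
  unfold Pv Pf
  rw [finsetSum_coeff]
  refine Finset.sum_eq_zero fun j _ => ?_
  rw [coeff_C_mul_X_pow, if_neg]
  intro h
  have := j.2
  omega

lemma Pv_inj {n : ℕ} : Function.Injective (Pv : (Fin n → ℤ) → ℤ[X]) := by
  intro u v h
  ext i
  rw [← Pv_coeff u i, ← Pv_coeff v i, h]

lemma Pv_surj (n : ℕ) (P : ℤ[X]) (hP : P.natDegree < n) :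
    Pv (fun i : Fin n => P.coeff i) = P := by
  ext i
  by_cases hi : i < n
  · exact Pv_coeff (fun i : Fin n => P.coeff i) ⟨i, hi⟩
  · rw [Pv_coeff_ge _ (not_lt.1 hi), coeff_eq_zero_of_natDegree_lt (by omega)]

lemma indep_X (n : ℕ) : LinearIndependent ℤ (fun i : Fin n => (X : ℤ[X]) ^ (i : ℕ)) := by
  rw [Fintype.linearIndependent_iff]
  intro g hg i
  have h1 : Pv g = 0 := by
    rw [← hg]
    unfold Pv Pf
    refine Finset.sum_congr rfl fun i _ => ?_
    rw [smul_eq_C_mul]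
  rw [← Pv_coeff g i, h1, coeff_zero]

lemma countable_poly : Countable ℤ[X] := by
  rw [← Cardinal.mk_le_aleph0_iff]
  refine (Polynomial.cardinalMk_le_max (R := ℤ)).trans ?_
  simp

/-- Sprindzhuk's theorem. -/
theorem spr (hcore : S_CORE) : ∀ᵐ z : ℝ, ∀ s : ℕ, 1 ≤ s → ∀ ε : ℝ, 0 < ε →
    {a : Fin (s + 1) → ℤ | a ≠ 0 ∧ |DD 0 (Pv a) z| ≤ (sz a : ℝ) ^ (-(s : ℝ) - ε)}.Finite := by
  have h1 : ∀ s : ℕ, 1 ≤ s → ∀ m : ℕ, ∀ᵐ z : ℝ,
      {a : Fin (s + 1) → ℤ | a ≠ 0 ∧ |DD 0 (Pv a) z| ≤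
        (sz a : ℝ) ^ (-(s : ℝ) - 1 / ((m : ℝ) + 1))}.Finite := by
    intro s hs m
    have h2 := hcore s 0 s (fun i => X ^ (i : ℕ)) ⊤ Set.univ (fun _ => 1) (indep_X _)
      (by rw [finrank_top]; simp) (by omega) le_rfl (by omega) (fun _ _ => le_rfl)
      (fun _ _ _ _ _ => rfl) (by
        intro ε hε
        refine ⟨1, fun T F hT hF hF2 => ?_⟩
        have hc : F.card ≤ 1 := by
          rw [Finset.card_le_one]
          intro a ha b hb
          by_contra hab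
          exact hF2 a ha b hb hab trivial
        rw [Finset.sum_const, nsmul_eq_mul, inv_one, mul_one, one_mul]
        have hT1 : (1 : ℝ) ≤ T := by exact_mod_cast hT
        have h3 : (1 : ℝ) ≤ (T : ℝ) ^ ε := Real.one_le_rpow hT1 hε.le
        have h4 : (F.card : ℝ) ≤ 1 := by exact_mod_cast hc
        linarith) (1 / ((m : ℝ) + 1)) (by positivity)
    filter_upwards [h2] with z hz
    refine hz.subset ?_
    rintro a ⟨ha, ha2⟩
    refine ⟨trivial, ha, ?_⟩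
    refine ha2.trans (le_of_eq ?_)
    rw [inv_one, mul_one]
    congr 1
    push_cast
    ring
  have h2 : ∀ᵐ z : ℝ, ∀ s : ℕ, 1 ≤ s → ∀ m : ℕ,
      {a : Fin (s + 1) → ℤ | a ≠ 0 ∧ |DD 0 (Pv a) z| ≤
        (sz a : ℝ) ^ (-(s : ℝ) - 1 / ((m : ℝ) + 1))}.Finite := by
    rw [ae_all_iff]
    intro s
    by_cases hs : 1 ≤ s
    · have := ae_all_iff.2 (h1 s hs)
      filter_upwards [this] with z hz _
      exact hz
    · exact Filter.Eventually.of_forall fun z h => absurd h hs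
  filter_upwards [h2] with z hz s hs ε hε
  obtain ⟨m, hm⟩ := exists_nat_one_div_lt hε
  refine (hz s hs m).subset ?_
  rintro a ⟨ha, ha2⟩
  refine ⟨ha, ha2.trans ?_⟩
  have hsz : 1 ≤ sz a := by
    by_contra hcon
    apply ha
    ext i
    have h3 : (a i).natAbs ≤ sz a := Finset.le_sup (f := fun i => (a i).natAbs) (Finset.mem_univ i)
    have h4 : (a i).natAbs = 0 := by omega
    exact Int.natAbs_eq_zero.1 h4
  have hsz1 : (1 : ℝ) ≤ sz a := by exact_mod_cast hsz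
  exact Real.rpow_le_rpow_of_exponent_le hsz1 (by linarith)

/-- The metric theorem for a divisor. -/
theorem main (hcore : S_CORE) (hrank : S_RANK) (hinv : S_INV) (hcnt : S_CNT2) :
    ∀ᵐ z : ℝ, ∀ (s q : ℕ) (G : ℤ[X]), IsDiv q G → q + 1 ≤ s → ∀ ε : ℝ, 0 < ε →
      {a : Fin (s + 1) → ℤ | rs G q s a ≠ 0 ∧ |DD 0 (Pv a) z| ≤
        (sz a : ℝ) ^ ((q : ℝ) - (max s (3 * q - 1) : ℕ) - ε) *
          ((rad (rs G q s a) : ℝ))⁻¹}.Finite := by
  haveI := countable_poly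
  have h1 : ∀ (s q : ℕ) (G : ℤ[X]), IsDiv q G → q + 1 ≤ s → ∀ m : ℕ, ∀ᵐ z : ℝ,
      {a : Fin (s + 1) → ℤ | rs G q s a ≠ 0 ∧ a ≠ 0 ∧ |DD 0 (Pv a) z| ≤
        (sz a : ℝ) ^ ((q : ℝ) - (max s (3 * q - 1) : ℕ) - 1 / ((m : ℝ) + 1)) *
          ((rad (rs G q s a) : ℝ))⁻¹}.Finite := by
    intro s q G hG hqs m
    have hrad : ∀ m : ℤ, 1 ≤ rad m := fun m =>
      Finset.prod_pos fun p hp => (Nat.prime_of_mem_primeFactors hp).pos
    refine hcore s q (max s (3 * q - 1)) (fun i => X ^ (i : ℕ)) (VG G q s)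
      {a | rs G q s a ≠ 0} (fun a => (rad (rs G q s a) : ℝ)) (indep_X _)
      (hrank q s G hG (by omega)) hqs (le_max_left _ _) (by omega)
      (fun a _ => by exact_mod_cast hrad _)
      (fun a _ b _ hab => by
        show (rad (rs G q s a) : ℝ) = (rad (rs G q s b) : ℝ)
        rw [hinv q s G a b hG hab]) (fun ε hε => ?_)
      (1 / ((m : ℝ) + 1)) (by positivity)
    obtain ⟨C, hC⟩ := hcnt q s G hG ε hε
    exact ⟨C, fun T F hT hF hF2 => hC T F hT (fun a ha => ⟨(hF a ha).2, (hF a ha).1⟩) hF2⟩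
  have h2 : ∀ᵐ z : ℝ, ∀ (s q : ℕ) (G : ℤ[X]) (m : ℕ), IsDiv q G → q + 1 ≤ s →
      {a : Fin (s + 1) → ℤ | rs G q s a ≠ 0 ∧ a ≠ 0 ∧ |DD 0 (Pv a) z| ≤
        (sz a : ℝ) ^ ((q : ℝ) - (max s (3 * q - 1) : ℕ) - 1 / ((m : ℝ) + 1)) *
          ((rad (rs G q s a) : ℝ))⁻¹}.Finite := by
    rw [ae_all_iff]
    intro s
    rw [ae_all_iff]
    intro q
    rw [ae_all_iff]
    intro G
    rw [ae_all_iff]
    intro m
    by_cases hG : IsDiv q G
    · by_cases hq : q + 1 ≤ s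
      · filter_upwards [h1 s q G hG hq m] with z hz _ _
        exact hz
      · exact Filter.Eventually.of_forall fun z _ h => absurd h hq
    · exact Filter.Eventually.of_forall fun z h => absurd h hG
  filter_upwards [h2] with z hz s q G hG hq ε hε
  obtain ⟨m, hm⟩ := exists_nat_one_div_lt hε
  refine ((hz s q G m hG hq).union (Set.finite_singleton 0)).subset ?_
  rintro a ⟨ha, ha2⟩
  by_cases h0 : a = 0
  · exact Or.inr h0
  refine Or.inl ⟨ha, h0, ha2.trans ?_⟩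
  have hsz : 1 ≤ sz a := by
    by_contra hcon
    apply h0
    ext i
    have h3 : (a i).natAbs ≤ sz a := Finset.le_sup (f := fun i => (a i).natAbs) (Finset.mem_univ i)
    have h4 : (a i).natAbs = 0 := by omega
    exact Int.natAbs_eq_zero.1 h4
  have hsz1 : (1 : ℝ) ≤ sz a := by exact_mod_cast hsz
  exact mul_le_mul_of_nonneg_right (Real.rpow_le_rpow_of_exponent_le hsz1 (by linarith))
    (by positivity)

end Q273.TR
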