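import Pool.Agent.Q273.TR.Def
import Pool.Agent.Q273.TR.Main

/-!
Heights, proximity and truncated counting functions in terms of polynomials.
-/

set_option autoImplicit false

namespace Q273.TR

open Polynomial

private lemma cinj : Function.Injective (Int.castRingHom ℂ) := Int.cast_injective

lemma mem_roots' {f : ℤ[X]} (hf : f ≠ 0) {z : ℂ} :
    z ∈ (f.map (Int.castRingHom ℂ)).roots ↔ aeval z f = 0 := by
  rw [mem_roots ((Polynomial.map_ne_zero_iff cinj).2 hf), IsRoot.def, eval_map, aeval_def]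
  rfl

/-- conjugates of `x` are not zeros of `G` -/
lemma G_ne {s : ℕ} (hs : 1 ≤ s) {G f : ℤ[X]} {x : ℂ} (h : IsPoint s G f x) {z : ℂ}
    (hz : z ∈ (f.map (Int.castRingHom ℂ)).roots) :
    (G.map (Int.castRingHom ℂ)).eval z ≠ 0 := by
  obtain ⟨hirr, hdeg, hx, hGx⟩ := h
  rw [mem_roots' hirr.ne_zero] at hz
  intro hGz
  apply hGx
  have hprim : f.IsPrimitive := hirr.isPrimitive (by omega)
  have hirrQ : Irreducible (f.map (algebraMap ℤ ℚ)) :=
    (hprim.irreducible_iff_irreducible_map_fraction_map).1 hirr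
  have hGz' : aeval z (G.map (algebraMap ℤ ℚ)) = 0 := by
    rw [aeval_map_algebraMap, aeval_def, ← eval_map]
    exact hGz
  have hfz : aeval z (f.map (algebraMap ℤ ℚ)) = 0 := by rw [aeval_map_algebraMap]; exact hz
  have hint : IsIntegral ℚ z := by
    rw [← isAlgebraic_iff_isIntegral]
    exact ⟨f.map (algebraMap ℤ ℚ), hirrQ.ne_zero, hfz⟩
  have h1 : Associated (minpoly ℚ z) (f.map (algebraMap ℤ ℚ)) :=
    (minpoly.irreducible hint).associated_of_dvd hirrQ (minpoly.dvd ℚ z hfz)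
  have h2 : f.map (algebraMap ℤ ℚ) ∣ G.map (algebraMap ℤ ℚ) :=
    h1.symm.dvd.trans (minpoly.dvd ℚ z hGz')
  obtain ⟨k, hk⟩ := h2
  have h3 : aeval x (G.map (algebraMap ℤ ℚ)) = 0 := by
    rw [hk, map_mul, aeval_map_algebraMap, hx, zero_mul]
  rwa [aeval_map_algebraMap] at h3

lemma res_val {G f : ℤ[X]} {q : ℕ} (hq : G.natDegree ≤ q) :
    ((resultant f G f.natDegree q : ℤ) : ℂ) = (f.leadingCoeff : ℂ) ^ q *
      ((f.map (Int.castRingHom ℂ)).roots.map (G.map (Int.castRingHom ℂ)).eval).prod := by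
  have h1 : ((resultant f G f.natDegree q : ℤ) : ℂ) = resultant (f.map (Int.castRingHom ℂ))
      (G.map (Int.castRingHom ℂ)) (f.map (Int.castRingHom ℂ)).natDegree q := by
    rw [natDegree_map_eq_of_injective cinj, resultant_map_map]
    rfl
  have hsp : (f.map (Int.castRingHom ℂ)).Splits := IsAlgClosed.splits _
  rw [h1, resultant_eq_prod_eval _ _ q (natDegree_map_le.trans hq) hsp,
    leadingCoeff_map_of_injective cinj]
  rfl

lemma res_ne {s : ℕ} (hs : 1 ≤ s) {G f : ℤ[X]} {x : ℂ} {q : ℕ} (h : IsPoint s G f x)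
    (hq : G.natDegree ≤ q) : resultant f G f.natDegree q ≠ 0 := by
  intro h0
  have h1 := res_val (f := f) hq
  rw [h0, Int.cast_zero] at h1
  have hlc : (f.leadingCoeff : ℂ) ≠ 0 := by
    exact_mod_cast leadingCoeff_ne_zero.2 h.1.ne_zero
  have h2 : ((f.map (Int.castRingHom ℂ)).roots.map (G.map (Int.castRingHom ℂ)).eval).prod ≠ 0 := by
    intro h3
    rw [Multiset.prod_eq_zero_iff, Multiset.mem_map] at h3
    obtain ⟨z, hz, hz0⟩ := h3
    exact G_ne hs h hz hz0
  exact mul_ne_zero (pow_ne_zero _ hlc) h2 h1.symm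

/-- the Mahler measure -/
noncomputable def mah (f : ℤ[X]) : ℝ := (f.map (Int.castRingHom ℂ)).mahlerMeasure

lemma one_le_mah (f : ℤ[X]) (hf : f ≠ 0) : 1 ≤ mah f := one_le_mahlerMeasure_of_ne_zero hf

lemma mah_eq (f : ℤ[X]) : mah f = ‖(f.leadingCoeff : ℂ)‖ *
    ((f.map (Int.castRingHom ℂ)).roots.map (fun z => max 1 ‖z‖)).prod := by
  unfold mah
  rw [mahlerMeasure_eq_leadingCoeff_mul_prod_roots, leadingCoeff_map_of_injective cinj]
  rfl

lemma log_prod (s : Multiset ℂ) (g : ℂ → ℝ) (h : ∀ z ∈ s, g z ≠ 0) :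
    (s.map fun z => Real.log (g z)).sum = Real.log (s.map g).prod := by
  induction s using Multiset.induction_on with
  | empty => simp
  | cons a s ih =>
    rw [Multiset.map_cons, Multiset.sum_cons, Multiset.map_cons, Multiset.prod_cons,
      ih (fun z hz => h z (Multiset.mem_cons_of_mem hz)), Real.log_mul]
    · exact h a (Multiset.mem_cons_self a s)
    · intro h0
      rw [Multiset.prod_eq_zero_iff, Multiset.mem_map] at h0
      obtain ⟨z, hz, hz0⟩ := h0
      exact h z (Multiset.mem_cons_of_mem hz) hz0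

lemma mprod_pos (s : Multiset ℂ) : 0 < (s.map (fun z => max 1 ‖z‖)).prod := by
  induction s using Multiset.induction_on with
  | empty => simp
  | cons a s ih =>
    rw [Multiset.map_cons, Multiset.prod_cons]
    exact mul_pos (lt_of_lt_of_le one_pos (le_max_left _ _)) ih

lemma sum_map_add' (s : Multiset ℂ) (g h : ℂ → ℝ) :
    (s.map fun z => g z + h z).sum = (s.map g).sum + (s.map h).sum := Multiset.sum_map_add

lemma sum_map_sub' (s : Multiset ℂ) (g h : ℂ → ℝ) :
    (s.map fun z => g z - h z).sum = (s.map g).sum - (s.map h).sum := Multiset.sum_map_sub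

lemma sum_congr' (s : Multiset ℂ) (g h : ℂ → ℝ) (hgh : ∀ z ∈ s, g z = h z) :
    (s.map g).sum = (s.map h).sum := by
  rw [Multiset.map_congr rfl hgh]

lemma norm_prod' (s : Multiset ℂ) (g : ℂ → ℂ) :
    ‖(s.map g).prod‖ = (s.map fun z => ‖g z‖).prod := by
  induction s using Multiset.induction_on with
  | empty => simp
  | cons a s ih => rw [Multiset.map_cons, Multiset.prod_cons, norm_mul, ih, Multiset.map_cons,
      Multiset.prod_cons]

lemma log_mah {f : ℤ[X]} (hf : f ≠ 0) :
    ((f.map (Int.castRingHom ℂ)).roots.map fun z => Real.log (max 1 ‖z‖)).sum =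
      Real.log (mah f) - Real.log ‖(f.leadingCoeff : ℂ)‖ := by
  have hlc : (f.leadingCoeff : ℂ) ≠ 0 := by exact_mod_cast leadingCoeff_ne_zero.2 hf
  rw [log_prod _ _ (fun z _ => (lt_of_lt_of_le one_pos (le_max_left 1 ‖z‖)).ne'), mah_eq,
    Real.log_mul (norm_ne_zero_iff.2 hlc) (mprod_pos _).ne']
  ring

lemma card_roots' (f : ℤ[X]) : (f.map (Int.castRingHom ℂ)).roots.card = f.natDegree := by
  rw [← natDegree_map_eq_of_injective cinj f]
  exact (IsAlgClosed.card_roots_eq_natDegree)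

/-- the proximity function -/
lemma prox_eq (ξ : ℝ) {f : ℤ[X]} (hf : f ≠ 0) (hd : 1 ≤ f.natDegree)
    (hξ : DD 0 f ξ ≠ 0) : prox ξ f = (Real.log (mah f) - Real.log |DD 0 f ξ|) / f.natDegree +
      Real.log (max 1 |ξ|) := by
  have hd0 : (f.natDegree : ℝ) ≠ 0 := by
    have : f.natDegree ≠ 0 := by omega
    exact_mod_cast this
  have hlc : (f.leadingCoeff : ℂ) ≠ 0 := by exact_mod_cast leadingCoeff_ne_zero.2 hf
  have hev : ((DD 0 f ξ : ℝ) : ℂ) = (f.map (Int.castRingHom ℂ)).eval (ξ : ℂ) := by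
    unfold DD
    rw [hasseDeriv_zero, LinearMap.id_apply, eval_map, eval_map]
    rw [show (Int.castRingHom ℂ) = (Complex.ofRealHom).comp (Int.castRingHom ℝ) from
      RingHom.ext_int _ _]
    exact Polynomial.hom_eval₂ f (Int.castRingHom ℝ) Complex.ofRealHom ξ
  have hprod : (f.map (Int.castRingHom ℂ)).eval (ξ : ℂ) = (f.leadingCoeff : ℂ) *
      ((f.map (Int.castRingHom ℂ)).roots.map fun z => (ξ : ℂ) - z).prod := by
    have h1 := (IsAlgClosed.splits (f.map (Int.castRingHom ℂ))).eq_prod_roots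
    conv_lhs => rw [h1]
    rw [eval_mul, eval_C, eval_multiset_prod, Multiset.map_map,
      leadingCoeff_map_of_injective cinj]
    congr 2
    refine Multiset.map_congr rfl fun z _ => ?_
    simp
  have hne : ∀ z ∈ (f.map (Int.castRingHom ℂ)).roots, ‖(ξ : ℂ) - z‖ ≠ 0 := by
    intro z hz h0
    rw [norm_eq_zero, sub_eq_zero] at h0
    rw [mem_roots ((Polynomial.map_ne_zero_iff cinj).2 hf), IsRoot.def, ← h0, ← hev] at hz
    exact hξ (by exact_mod_cast hz)
  have hm1 : ∀ z : ℂ, max 1 ‖z‖ ≠ 0 := fun z => (lt_of_lt_of_le one_pos (le_max_left _ _)).ne'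
  have hm2 : max 1 |ξ| ≠ 0 := (lt_of_lt_of_le one_pos (le_max_left _ _)).ne'
  unfold prox
  have e1 : ((f.map (Int.castRingHom ℂ)).roots.map fun z =>
      Real.log (max 1 ‖z‖ * max 1 |ξ| / ‖(ξ : ℂ) - z‖)).sum =
      ((f.map (Int.castRingHom ℂ)).roots.map fun z => (Real.log (max 1 ‖z‖) +
        Real.log (max 1 |ξ|)) - Real.log ‖(ξ : ℂ) - z‖).sum := by
    refine sum_congr' _ _ _ fun z hz => ?_
    rw [Real.log_div (mul_ne_zero (hm1 z) hm2) (hne z hz), Real.log_mul (hm1 z) hm2]
  have e2 : ((f.map (Int.castRingHom ℂ)).roots.map fun z => Real.log ‖(ξ : ℂ) - z‖).sum =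
      Real.log |DD 0 f ξ| - Real.log ‖(f.leadingCoeff : ℂ)‖ := by
    rw [log_prod _ (fun z => ‖(ξ : ℂ) - z‖) hne, ← norm_prod' _ (fun z => (ξ : ℂ) - z)]
    have h1 : |DD 0 f ξ| = ‖(f.leadingCoeff : ℂ)‖ *
        ‖((f.map (Int.castRingHom ℂ)).roots.map fun z => (ξ : ℂ) - z).prod‖ := by
      rw [← norm_mul, ← hprod, ← hev, Complex.norm_real, Real.norm_eq_abs]
    have h2 : ‖((f.map (Int.castRingHom ℂ)).roots.map fun z => (ξ : ℂ) - z).prod‖ ≠ 0 := by
      intro h0
      rw [h0, mul_zero, abs_eq_zero] at h1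
      exact hξ h1
    rw [h1, Real.log_mul (norm_ne_zero_iff.2 hlc) h2]
    ring
  rw [e1, sum_map_sub', sum_map_add', log_mah hf, e2, Multiset.map_const', Multiset.sum_replicate,
    card_roots', nsmul_eq_mul]
  field_simp
  ring

/-- the size of a polynomial and the Mahler measure -/
lemma sz_le_mah {s : ℕ} (a : Fin (s + 1) → ℤ) : (sz a : ℝ) ≤ 2 ^ s * mah (Pv a) := by
  obtain ⟨i, _, hi⟩ := Finset.exists_mem_eq_sup Finset.univ Finset.univ_nonempty
    (fun i => (a i).natAbs)
  have h0 : (sz a : ℝ) = |((a i : ℤ) : ℝ)| := by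
    have : sz a = (a i).natAbs := hi
    rw [this, Nat.cast_natAbs, Int.cast_abs]
  rw [h0, ← Pv_coeff a i]
  have h1 : |(((Pv a).coeff i : ℤ) : ℝ)| = ‖((Pv a).map (Int.castRingHom ℂ)).coeff i‖ := by
    rw [coeff_map, Int.coe_castRingHom, Complex.norm_intCast]
  rw [h1]
  refine (norm_coeff_le_choose_mul_mahlerMeasure _ _).trans ?_
  refine mul_le_mul_of_nonneg_right ?_ (mahlerMeasure_nonneg _)
  rw [natDegree_map_eq_of_injective cinj]
  have hdeg : (Pv a).natDegree ≤ s := by
    rw [natDegree_le_iff_coeff_eq_zero]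
    intro j hj
    exact Pv_coeff_ge a (by omega)
  have h2 : ((Pv a).natDegree.choose i : ℝ) ≤ 2 ^ (Pv a).natDegree := by
    exact_mod_cast Nat.choose_le_two_pow _ _
  exact h2.trans (pow_le_pow_right₀ (by norm_num) hdeg)

lemma abs_le_sz {n : ℕ} (a : Fin n → ℤ) (i : Fin n) : |((a i : ℤ) : ℝ)| ≤ sz a := by
  have h3 : (a i).natAbs ≤ sz a := Finset.le_sup (f := fun i => (a i).natAbs) (Finset.mem_univ i)
  have h4 : |((a i : ℤ) : ℝ)| = ((a i).natAbs : ℝ) := by rw [Nat.cast_natAbs, Int.cast_abs]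
  rw [h4]
  exact_mod_cast h3

lemma mah_le_sz {s : ℕ} (a : Fin (s + 1) → ℤ) : mah (Pv a) ≤ (s + 1) * sz a := by
  unfold mah
  refine (mahlerMeasure_le_sum_norm_coeff _).trans ?_
  rw [Polynomial.sum_def]
  have h1 : ((Pv a).map (Int.castRingHom ℂ)).support ⊆ Finset.range (s + 1) := by
    intro i hi
    rw [Finset.mem_range]
    by_contra hcon
    rw [mem_support_iff, coeff_map, Pv_coeff_ge a (by omega)] at hi
    simp at hi
  have h2 : ∀ i ∈ ((Pv a).map (Int.castRingHom ℂ)).support,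
      ‖((Pv a).map (Int.castRingHom ℂ)).coeff i‖ ≤ sz a := by
    intro i hi
    have hi' := Finset.mem_range.1 (h1 hi)
    rw [coeff_map, Int.coe_castRingHom, Complex.norm_intCast]
    have h3 := Pv_coeff a ⟨i, hi'⟩
    have h3' : (Pv a).coeff i = a ⟨i, hi'⟩ := h3
    rw [h3']
    exact abs_le_sz a _
  refine (Finset.sum_le_card_nsmul _ _ _ h2).trans ?_
  rw [nsmul_eq_mul]
  refine mul_le_mul_of_nonneg_right ?_ (Nat.cast_nonneg _)
  have := Finset.card_le_card h1
  rw [Finset.card_range] at this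
  exact_mod_cast this

lemma rad_pos (m : ℤ) : 0 < rad m :=
  Finset.prod_pos fun p hp => (Nat.prime_of_mem_primeFactors hp).pos

lemma log_rad (m : ℤ) : Real.log (rad m) = ∑ p ∈ m.natAbs.primeFactors, Real.log p := by
  unfold rad
  rw [Nat.cast_prod, Real.log_prod]
  intro p hp
  exact_mod_cast (Nat.prime_of_mem_primeFactors hp).ne_zero

lemma log_rad_le (S : Finset ℕ) (m : ℤ) :
    Real.log (rad m) ≤ ∑ p ∈ m.natAbs.primeFactors \ S, Real.log p + ∑ p ∈ S, Real.log p := by
  classical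
  rw [log_rad, ← Finset.sum_sdiff (s₁ := m.natAbs.primeFactors ∩ S)
    (s₂ := m.natAbs.primeFactors) Finset.inter_subset_left, Finset.sdiff_inter_self_left]
  refine add_le_add le_rfl (Finset.sum_le_sum_of_subset_of_nonneg Finset.inter_subset_right ?_)
  intro p _ _
  exact Real.log_natCast_nonneg p

/-- the local heights at the places of `S` and infinity, and the truncated counting function -/
lemma lam_le {s : ℕ} (hs : 1 ≤ s) {G f : ℤ[X]} {x : ℂ} {q : ℕ} (h : IsPoint s G f x)
    (hq : G.natDegree ≤ q) (S : Finset ℕ) (hS : ∀ p ∈ S, p.Prime) :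
    lambdaInf G q f + ∑ p ∈ S, lambdaP p G q f + N1 S q G f ≤ q * height f := by
  classical
  have hf0 := h.1.ne_zero
  have hd : f.natDegree = s := h.2.1
  have hd0 : (0 : ℝ) < f.natDegree := by
    rw [hd]; exact_mod_cast hs
  have hlc : (f.leadingCoeff : ℂ) ≠ 0 := by exact_mod_cast leadingCoeff_ne_zero.2 hf0
  have hne : ∀ z ∈ (f.map (Int.castRingHom ℂ)).roots,
      ‖(G.map (Int.castRingHom ℂ)).eval z‖ ≠ 0 := fun z hz => norm_ne_zero_iff.2 (G_ne hs h hz)
  have hm1 : ∀ z : ℂ, max 1 ‖z‖ ≠ 0 := fun z => (lt_of_lt_of_le one_pos (le_max_left _ _)).ne'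
  set R : ℤ := resultant f G f.natDegree q with hR
  have hR0 : R ≠ 0 := res_ne hs h hq
  have e1 : ((f.map (Int.castRingHom ℂ)).roots.map fun z =>
      Real.log (max 1 ‖z‖ ^ q / ‖(G.map (Int.castRingHom ℂ)).eval z‖)).sum =
      q * (Real.log (mah f) - Real.log ‖(f.leadingCoeff : ℂ)‖) -
        (Real.log |(R : ℝ)| - q * Real.log ‖(f.leadingCoeff : ℂ)‖) := by
    have h1 : ((f.map (Int.castRingHom ℂ)).roots.map fun z =>
        Real.log (max 1 ‖z‖ ^ q / ‖(G.map (Int.castRingHom ℂ)).eval z‖)).sum =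
        ((f.map (Int.castRingHom ℂ)).roots.map fun z => q * Real.log (max 1 ‖z‖) -
          Real.log ‖(G.map (Int.castRingHom ℂ)).eval z‖).sum := by
      refine sum_congr' _ _ _ fun z hz => ?_
      rw [Real.log_div (pow_ne_zero _ (hm1 z)) (hne z hz), Real.log_pow]
    have h2 : |(R : ℝ)| = ‖(f.leadingCoeff : ℂ)‖ ^ q *
        ‖((f.map (Int.castRingHom ℂ)).roots.map (G.map (Int.castRingHom ℂ)).eval).prod‖ := by
      rw [← norm_pow, ← norm_mul, ← res_val hq, ← hR, Complex.norm_intCast]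
    have h3 : ‖((f.map (Int.castRingHom ℂ)).roots.map
        (G.map (Int.castRingHom ℂ)).eval).prod‖ ≠ 0 := by
      intro h0
      rw [h0, mul_zero, abs_eq_zero] at h2
      exact hR0 (by exact_mod_cast h2)
    rw [h1, sum_map_sub', Multiset.sum_map_mul_left, log_mah hf0,
      log_prod _ (fun z => ‖(G.map (Int.castRingHom ℂ)).eval z‖) hne,
      ← norm_prod' _ (fun z => (G.map (Int.castRingHom ℂ)).eval z), h2,
      Real.log_mul (pow_ne_zero _ (norm_ne_zero_iff.2 hlc)) h3, Real.log_pow]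
    ring
  -- the arithmetic part
  have e2 : ∑ p ∈ S, (padicValInt p R : ℝ) * Real.log p +
      ∑ p ∈ R.natAbs.primeFactors \ S, Real.log p ≤ Real.log |(R : ℝ)| := by
    have hn : R.natAbs ≠ 0 := Int.natAbs_ne_zero.2 hR0
    have h1 : Real.log |(R : ℝ)| = ∑ p ∈ R.natAbs.primeFactors,
        (R.natAbs.factorization p : ℝ) * Real.log p := by
      have h2 : |(R : ℝ)| = ((R.natAbs : ℕ) : ℝ) := by rw [Nat.cast_natAbs, Int.cast_abs]
      rw [h2]
      conv_lhs => rw [← Nat.prod_factorization_pow_eq_self hn]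
      rw [Finsupp.prod, Nat.support_factorization, Nat.cast_prod, Real.log_prod]
      · refine Finset.sum_congr rfl fun p _ => ?_
        rw [Nat.cast_pow, Real.log_pow]
      · intro p hp
        have := (Nat.prime_of_mem_primeFactors hp).pos
        positivity
    have h2 : ∑ p ∈ S, (padicValInt p R : ℝ) * Real.log p =
        ∑ p ∈ R.natAbs.primeFactors ∩ S, (R.natAbs.factorization p : ℝ) * Real.log p := by
      symm
      refine Finset.sum_subset_zero_on_sdiff Finset.inter_subset_right ?_ ?_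
      · intro p hp
        rw [Finset.mem_sdiff, Finset.mem_inter, not_and'] at hp
        have h3 : p ∉ R.natAbs.primeFactors := hp.2 hp.1
        have h4 : padicValInt p R = 0 := by
          unfold padicValInt
          refine padicValNat.eq_zero_of_not_dvd fun hdvd => h3 ?_
          exact Nat.mem_primeFactors.2 ⟨hS p hp.1, hdvd, hn⟩
        rw [h4]; simp
      · intro p hp
        rw [Finset.mem_inter] at hp
        have h4 : R.natAbs.factorization p = padicValInt p R := by
          unfold padicValInt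
          rw [Nat.factorization_def _ (hS p hp.2)]
        rw [h4]
    rw [h1, h2, ← Finset.sum_sdiff (s₁ := R.natAbs.primeFactors ∩ S)
      (s₂ := R.natAbs.primeFactors) Finset.inter_subset_left, Finset.sdiff_inter_self_left,
      add_comm]
    refine add_le_add (Finset.sum_le_sum fun p hp => ?_) le_rfl
    rw [Finset.mem_sdiff] at hp
    have h5 : 1 ≤ R.natAbs.factorization p := by
      have h6 := Nat.mem_primeFactors.1 hp.1
      exact (h6.1.dvd_iff_one_le_factorization hn).1 h6.2.1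
    have h7 : (1 : ℝ) ≤ (R.natAbs.factorization p : ℝ) := by exact_mod_cast h5
    exact le_mul_of_one_le_left (Real.log_natCast_nonneg p) h7
  unfold lambdaInf lambdaP N1 height
  rw [e1, ← Finset.sum_div, ← add_div, ← add_div, ← hR]
  have e3 : (q : ℝ) * (Real.log (f.map (Int.castRingHom ℂ)).mahlerMeasure / f.natDegree) =
      (q * Real.log (mah f)) / f.natDegree := by
    unfold mah; ring
  rw [e3]
  refine div_le_div_of_nonneg_right ?_ hd0.le
  linarith

end Q273.TR
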