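import Pool.Agent.Q273.TR.Stm

set_option autoImplicit false

namespace Q273.TR

open Polynomial MeasureTheory

/-- a differentiable function on an interval with a bound for the derivative -/
lemma cell_lip (Q : ℝ[X]) (M : ℝ) (u v : ℝ) (hu : u ∈ Set.Icc (0 : ℝ) 1)
    (hv : v ∈ Set.Icc (0 : ℝ) 1)
    (h : ∀ z ∈ Set.uIcc u v, |(derivative Q).eval z| ≤ M) :
    |Q.eval u - Q.eval v| ≤ M * |u - v| := by
  have := Convex.norm_image_sub_le_of_norm_hasDerivWithin_le (f := fun z => Q.eval z)
    (f' := fun z => (derivative Q).eval z) (C := M) (s := Set.uIcc u v) (x := v) (y := u)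
    (fun z _ => (Q.hasDerivAt z).hasDerivWithinAt)
    (fun z hz => by rw [Real.norm_eq_abs]; exact h z hz)
    (convex_uIcc u v) Set.right_mem_uIcc Set.left_mem_uIcc
  simpa [Real.norm_eq_abs] using this

theorem cell : S_CELL := by
  intro ι P κ K L ρ E hκ hK hL hρ hρ1 hLρ h2 hE
  set S : Set ℝ := {z : ℝ | z ∈ Set.Ico (0 : ℝ) 1 ∧ z ∉ E ∧ ∃ a, |(P a).eval z| ≤ κ ∧
    K / 2 < |(derivative (P a)).eval z| ∧ |(derivative (P a)).eval z| ≤ K} with hS
  -- two points of S at distance at most ρ are at distance at most 8 κ / K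
  have key : ∀ x ∈ S, ∀ y ∈ S, |x - y| ≤ ρ → |x - y| ≤ 8 * κ / K := by
    rintro x ⟨hx0, hxE, a, hax, hax1, hax2⟩ y ⟨hy0, hyE, b, hby, hby1, hby2⟩ hxy
    have hx : x ∈ Set.Icc (0 : ℝ) 1 := ⟨hx0.1, hx0.2.le⟩
    have hy : y ∈ Set.Icc (0 : ℝ) 1 := ⟨hy0.1, hy0.2.le⟩
    have hsub : Set.uIcc x y ⊆ Set.Icc (0 : ℝ) 1 := Set.uIcc_subset_Icc hx hy
    have hder : ∀ c, ∀ w ∈ Set.uIcc x y, |(derivative (P c)).eval w - (derivative (P c)).eval y|
        ≤ K / 4 := by
      intro c w hw
      have h1 := cell_lip (derivative (P c)) L w y (hsub hw) hy (fun z hz => h2 c z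
        (Set.uIcc_subset_Icc (hsub hw) hy hz))
      have h3 : |w - y| ≤ |x - y| := by
        have := Set.abs_sub_right_of_mem_uIcc hw
        rw [abs_sub_comm w y, abs_sub_comm x y]
        exact this
      calc _ ≤ L * |w - y| := h1
        _ ≤ L * ρ := by gcongr; exact h3.trans hxy
        _ ≤ K / 4 := hLρ
    have hab : a = b := by
      by_contra hne
      apply hxE
      refine hE a b hne x hx0 ?_ ?_
      · have h1 : |(P b).eval x - (P b).eval y| ≤ (K + K / 4) * |x - y| := by
          apply cell_lip (P b) (K + K / 4) x y hx hy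
          intro z hz
          have := hder b z hz
          have h4 := abs_sub_abs_le_abs_sub ((derivative (P b)).eval z) ((derivative (P b)).eval y)
          linarith
        have h5 : |(P b).eval x| ≤ κ + (K + K / 4) * ρ := by
          have h4 := abs_sub_abs_le_abs_sub ((P b).eval x) ((P b).eval y)
          have h6 : (K + K / 4) * |x - y| ≤ (K + K / 4) * ρ := by gcongr
          linarith
        have h7 := abs_sub ((P a).eval x) ((P b).eval x)
        have : 0 < K * ρ := by positivity
        nlinarith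
      · have h1 := hder b x Set.left_mem_uIcc
        have h4 := abs_sub_abs_le_abs_sub ((derivative (P b)).eval x) ((derivative (P b)).eval y)
        have h7 := abs_sub ((derivative (P a)).eval x) ((derivative (P b)).eval x)
        linarith
    subst hab
    -- mean value theorem
    by_cases hxy' : x = y
    · subst hxy'
      simp only [sub_self, abs_zero]
      positivity
    obtain ⟨c, hc, hc'⟩ : ∃ c ∈ Set.uIcc x y,
        (P a).eval x - (P a).eval y = (derivative (P a)).eval c * (x - y) := by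
      rcases lt_or_gt_of_ne hxy' with h | h
      · obtain ⟨c, hc, hc'⟩ := exists_hasDerivAt_eq_slope (fun z => (P a).eval z)
          (fun z => (derivative (P a)).eval z) h (P a).continuous.continuousOn
          (fun z _ => (P a).hasDerivAt z)
        refine ⟨c, ?_, ?_⟩
        · rw [Set.uIcc_of_le h.le]; exact Set.Ioo_subset_Icc_self hc
        · have : y - x ≠ 0 := sub_ne_zero.mpr (Ne.symm hxy')
          rw [eq_div_iff this] at hc'
          linarith
      · obtain ⟨c, hc, hc'⟩ := exists_hasDerivAt_eq_slope (fun z => (P a).eval z)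
          (fun z => (derivative (P a)).eval z) h (P a).continuous.continuousOn
          (fun z _ => (P a).hasDerivAt z)
        refine ⟨c, ?_, ?_⟩
        · rw [Set.uIcc_of_ge h.le]; exact Set.Ioo_subset_Icc_self hc
        · have : x - y ≠ 0 := sub_ne_zero.mpr hxy'
          rw [eq_div_iff this] at hc'
          linarith
    have hc2 : K / 4 ≤ |(derivative (P a)).eval c| := by
      have h1 := hder a c hc
      have h4 := abs_sub_abs_le_abs_sub ((derivative (P a)).eval y) ((derivative (P a)).eval c)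
      rw [abs_sub_comm] at h1
      linarith
    have h8 : K / 4 * |x - y| ≤ 2 * κ := by
      calc K / 4 * |x - y| ≤ |(derivative (P a)).eval c| * |x - y| := by gcongr
        _ = |(P a).eval x - (P a).eval y| := by rw [hc', abs_mul]
        _ ≤ |(P a).eval x| + |(P a).eval y| := abs_sub _ _
        _ ≤ 2 * κ := by linarith
    rw [le_div_iff₀ hK]
    linarith
  -- cover by cells
  set N : ℕ := ⌈1 / ρ⌉₊ with hN
  have hN1 : 1 / ρ ≤ N := Nat.le_ceil _
  have hN0 : (0 : ℝ) < N := lt_of_lt_of_le (by positivity) hN1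
  have hN2 : (N : ℝ) ≤ 2 / ρ := by
    have h1 : (N : ℝ) < 1 / ρ + 1 := Nat.ceil_lt_add_one (by positivity)
    have h3 : 1 ≤ 1 / ρ := by rw [le_div_iff₀ hρ]; linarith
    have : (2 : ℝ) / ρ = 1 / ρ + 1 / ρ := by ring
    linarith
  have hcov : S ⊆ ⋃ j ∈ Finset.range N, S ∩ Set.Ico ((j : ℝ) / N) (((j : ℝ) + 1) / N) := by
    intro z hz
    have hz0 := hz.1
    have hzN : 0 ≤ z * N := mul_nonneg hz0.1 hN0.le
    simp only [Set.mem_iUnion]
    refine ⟨⌊z * N⌋₊, ?_, hz, ?_, ?_⟩
    · rw [Finset.mem_range, Nat.floor_lt hzN]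
      have := hz0.2
      nlinarith
    · rw [div_le_iff₀ hN0]; exact Nat.floor_le hzN
    · rw [lt_div_iff₀ hN0]; exact Nat.lt_floor_add_one _
  have hcell : ∀ j : ℕ, volume (S ∩ Set.Ico ((j : ℝ) / N) (((j : ℝ) + 1) / N)) ≤
      ENNReal.ofReal (8 * κ / K) := by
    intro j
    refine (Real.volume_le_diam _).trans ?_
    refine Metric.ediam_le ?_
    rintro x ⟨hx, hx1, hx2⟩ y ⟨hy, hy1, hy2⟩
    rw [edist_dist, Real.dist_eq]
    apply ENNReal.ofReal_le_ofReal
    apply key x hx y hy
    have h3 : 1 / (N : ℝ) ≤ ρ := by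
      rw [div_le_iff₀ hN0]
      rw [div_le_iff₀ hρ] at hN1
      linarith
    have h4 : ((j : ℝ) + 1) / N = j / N + 1 / N := by ring
    rw [abs_le]
    constructor <;> linarith
  calc volume S ≤ volume (⋃ j ∈ Finset.range N, S ∩ Set.Ico ((j : ℝ) / N) (((j : ℝ) + 1) / N)) :=
        measure_mono hcov
    _ ≤ ∑ j ∈ Finset.range N, volume (S ∩ Set.Ico ((j : ℝ) / N) (((j : ℝ) + 1) / N)) :=
        measure_biUnion_finset_le _ _
    _ ≤ ∑ j ∈ Finset.range N, ENNReal.ofReal (8 * κ / K) := Finset.sum_le_sum fun j _ => hcell j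
    _ = ENNReal.ofReal (N * (8 * κ / K)) := by
        rw [Finset.sum_const, Finset.card_range, nsmul_eq_mul, ENNReal.ofReal_mul hN0.le,
          ENNReal.ofReal_natCast]
    _ ≤ ENNReal.ofReal (16 * κ / (ρ * K)) := by
        apply ENNReal.ofReal_le_ofReal
        calc (N : ℝ) * (8 * κ / K) ≤ (2 / ρ) * (8 * κ / K) := by gcongr
          _ = 16 * κ / (ρ * K) := by field_simp; ring

end Q273.TR
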