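import Mathlib

/-!
Points of bounded degree near almost every real number: heights, proximity and truncated counting
functions.
-/

set_option autoImplicit false

namespace Q273.TR

open Polynomial

/-- The absolute logarithmic height `(log M(f)) / deg f` of the roots of an irreducible `f ∈ ℤ[X]`
(`M` is the Mahler measure). -/
noncomputable def height (f : ℤ[X]) : ℝ :=
  Real.log (f.map (Int.castRingHom ℂ)).mahlerMeasure / f.natDegree

/-- The proximity function `m(ξ, x)` of the real point `ξ`: the average over the conjugates `z` of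
`x`, i.e. the roots of `f`, of `log (max(1,|z|) max(1,|ξ|) / |ξ - z|)`. -/
noncomputable def prox (ξ : ℝ) (f : ℤ[X]) : ℝ :=
  ((f.map (Int.castRingHom ℂ)).roots.map fun z =>
    Real.log (max 1 ‖z‖ * max 1 |ξ| / ‖(ξ : ℂ) - z‖)).sum / f.natDegree

/-- `(1 / deg f) ∑ log p`, the sum over the primes `p` outside `S` which divide the resultant of
`f` and `G` (for the degrees `deg f` and `q`). -/
noncomputable def N1 (S : Finset ℕ) (q : ℕ) (G f : ℤ[X]) : ℝ :=
  (∑ p ∈ (resultant f G f.natDegree q).natAbs.primeFactors \ S, Real.log p) / f.natDegree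

/-- `λ_{D,∞}(x)` for the divisor `D` of degree `q` given by `G`: the average over the conjugates
`z` of `x` of `log (max(1,|z|)^q / |G(z)|)`. -/
noncomputable def lambdaInf (G : ℤ[X]) (q : ℕ) (f : ℤ[X]) : ℝ :=
  ((f.map (Int.castRingHom ℂ)).roots.map fun z =>
    Real.log (max 1 ‖z‖ ^ q / ‖(G.map (Int.castRingHom ℂ)).eval z‖)).sum / f.natDegree

/-- `λ_{D,p}(x)`, the average over the conjugates `z` of `x` over `ℚ_p` of
`log (max(1,|z|_p)^q / |G(z)|_p)`; for primitive `f` the sum over the conjugates is
`-log |Res(f,G)|_p`, with `Res` the resultant for the degrees `deg f` and `q`. -/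
noncomputable def lambdaP (p : ℕ) (G : ℤ[X]) (q : ℕ) (f : ℤ[X]) : ℝ :=
  (padicValInt p (resultant f G f.natDegree q) : ℝ) * Real.log p / f.natDegree

/-- `G` gives a reduced effective divisor of degree `q` of the projective line over `ℚ`
(`D = div₀(G) + (q - deg G) ∞`), and `S` is a set of primes. -/
def IsPair (q : ℕ) (G : ℤ[X]) (S : Finset ℕ) : Prop :=
  Squarefree (G.map (Int.castRingHom ℚ)) ∧ G.natDegree ≤ q ∧ q ≤ G.natDegree + 1 ∧
    ∀ p ∈ S, p.Prime

/-- `f` is the minimal polynomial over `ℤ` of the algebraic number `x` of degree `s`, which is not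
a zero of `G`. -/
def IsPoint (s : ℕ) (G f : ℤ[X]) (x : ℂ) : Prop :=
  Irreducible f ∧ f.natDegree = s ∧ aeval x f = 0 ∧ aeval x G ≠ 0

end Q273.TR
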